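import Mathlib

namespace Pool.Agent.Results.MP_b3d828_pr.Stars
open MeasureTheory ProbabilityTheory Filter Topology Asymptotics Classical
open scoped ENNReal

/-- The pairs of distinct vertices. -/
abbrev Pair (n : ℕ) := {e : Sym2 (Fin n) // ¬ e.IsDiag}

/-- The edge indicator. -/
noncomputable def ind {n : ℕ} {Ω : Type} (G : Ω → SimpleGraph (Fin n)) (e : Pair n) (ω : Ω) :
    Bool := decide (e.1 ∈ (G ω).edgeSet)

/-- `G` is a `d`-dependent random graph with edge probability `p`. -/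
def IsDep {n : ℕ} {Ω : Type} [MeasurableSpace Ω] (P : Measure Ω) (G : Ω → SimpleGraph (Fin n))
    (p : ℝ) (d : ℕ) : Prop :=
  IsProbabilityMeasure P ∧ (∀ e, Measurable (ind G e)) ∧
  (∀ e, P.real {ω | ind G e ω = true} = p) ∧
  ∃ D : SimpleGraph (Pair n), (∀ e, D.degree e ≤ d) ∧
    (∀ e, IndepFun (ind G e) (fun ω (f : {f // f ≠ e ∧ ¬ D.Adj e f}) => ind G f.1 ω) P) ∧
    (∀ A B : Set (Pair n), Disjoint A B → (∀ e ∈ A, ∀ f ∈ B, ¬ D.Adj e f) →
      IndepFun (fun ω (e : A) => ind G e.1 ω) (fun ω (f : B) => ind G f.1 ω) P)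

noncomputable def ber (p : ℝ) : Measure Bool :=
  ENNReal.ofReal p • Measure.dirac true + ENNReal.ofReal (1 - p) • Measure.dirac false

lemma ber_prob {p : ℝ} (h0 : 0 ≤ p) (h1 : p ≤ 1) : IsProbabilityMeasure (ber p) :=
  ⟨by simp [ber, ← ENNReal.ofReal_add h0 (sub_nonneg.2 h1)]⟩

section blocks
variable {L : Type} [Fintype L] (ν : Measure Bool) [IsProbabilityMeasure ν]

lemma indep_maps {A B : Type} (a : A → L) (b : B → L) (h : ∀ i j, a i ≠ b j) :
    IndepFun (fun (y : L → Bool) i => y (a i)) (fun y j => y (b j)) (Measure.pi fun _ => ν) := by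
  have h1 := (iIndepFun_pi (μ := fun _ : L => ν) (X := fun _ => id)
    fun _ => aemeasurable_id).indepFun_finset (Finset.univ.filter fun l => ∃ i, a i = l)
    (Finset.univ.filter fun l => ∃ j, b j = l) (Finset.disjoint_filter.2
      fun l _ ⟨i, hi⟩ ⟨j, hj⟩ => h i j (hi.trans hj.symm)) fun l => measurable_pi_apply l
  exact h1.comp (φ := fun z i => z ⟨a i, by simp⟩) (ψ := fun z j => z ⟨b j, by simp⟩)
    (measurable_of_countable _) (measurable_of_countable _)

def Dep (S : Set L) (A : Set (L → Bool)) : Prop :=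
  ∀ x y : L → Bool, (∀ l ∈ S, x l = y l) → x ∈ A → y ∈ A

lemma dep_mul {S T : Set L} {A B : Set (L → Bool)} (h : Disjoint S T) (hA : Dep S A)
    (hB : Dep T B) : (Measure.pi fun _ : L => ν).real (A ∩ B) =
      (Measure.pi fun _ : L => ν).real A * (Measure.pi fun _ : L => ν).real B := by
  have key : ∀ (S : Set L) (A : Set (L → Bool)), Dep S A → A =
      (fun (y : L → Bool) (i : S) => y i) ⁻¹' ((fun (y : L → Bool) (i : S) => y i) '' A) := by
    intro S A hA
    refine (Set.subset_preimage_image _ _).antisymm ?_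
    rintro y ⟨x, hx, he⟩
    exact hA x y (fun l hl => congrFun he ⟨l, hl⟩) hx
  have := (indep_maps ν (fun i : S => i.1) (fun j : T => j.1)
    fun i j hij => Set.disjoint_left.1 h i.2 (hij ▸ j.2)).measure_inter_preimage_eq_mul
    ((fun (y : L → Bool) (i : S) => y i) '' A) ((fun (y : L → Bool) (i : T) => y i) '' B)
    MeasurableSet.of_discrete MeasurableSet.of_discrete
  rw [← key S A hA, ← key T B hB] at this
  simp only [Measure.real, this, ENNReal.toReal_mul]

lemma dep_prod {I : Type} (S : I → Set L) (A : I → Set (L → Bool))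
    (h : ∀ i j, i ≠ j → Disjoint (S i) (S j)) (hA : ∀ i, Dep (S i) (A i)) {c : ℝ} (hc : 0 ≤ c)
    (hb : ∀ i, (Measure.pi fun _ : L => ν).real (A i) ≤ c) (F : Finset I) :
    (Measure.pi fun _ : L => ν).real (⋂ i ∈ F, A i) ≤ c ^ F.card := by
  induction F using Finset.induction with
  | empty => simp
  | insert i F hi ih =>
    rw [Finset.set_biInter_insert, dep_mul ν (T := ⋃ j ∈ F, S j) ?_ (hA i) ?_,
      Finset.card_insert_of_notMem hi, pow_succ']
    · exact mul_le_mul (hb i) ih measureReal_nonneg hc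
    · simp only [Set.disjoint_iUnion_right]
      exact fun j hj => h i j fun h' => hi (h' ▸ hj)
    · intro x y hxy hx
      simp only [Set.mem_iInter] at hx ⊢
      exact fun j hj => hA j x y (fun l hl => hxy l (Set.mem_iUnion₂.2 ⟨j, hj, hl⟩)) (hx j hj)

end blocks

noncomputable def gr {n : ℕ} {L : Type} (β : Sym2 (Fin n) → L) (y : L → Bool) :
    SimpleGraph (Fin n) := SimpleGraph.fromEdgeSet {e | y (β e) = true}

lemma ind_gr {n : ℕ} {L : Type} (β : Sym2 (Fin n) → L) (e : Pair n) :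
    ind (gr β) e = fun y => y (β e.1) := by
  funext y
  simp [ind, gr, e.2]

lemma coord {L : Type} [Fintype L] {p : ℝ} (h0 : 0 ≤ p) (h1 : p ≤ 1) (l : L) (b : Bool) :
    (Measure.pi fun _ : L => ber p).real {y | y l = b} = if b then p else 1 - p := by
  have := ber_prob h0 h1
  have h2 := (measurePreserving_eval (fun _ : L => ber p) l).measure_preimage
    (s := {b}) MeasurableSet.of_discrete.nullMeasurableSet
  have h3 : (Measure.pi fun _ : L => ber p) {y : L → Bool | y l = b} = ber p {b} := h2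
  rw [Measure.real, h3]
  cases b <;> simp [ber, h0, h1]

lemma isDep_gr {n : ℕ} {L : Type} [Fintype L] (β : Sym2 (Fin n) → L) {p : ℝ} (h0 : 0 ≤ p)
    (h1 : p ≤ 1) {d : ℕ} (h : ∀ l, (Finset.univ.filter fun e => β e = l).card ≤ d + 1) :
    IsDep (Measure.pi fun _ : L => ber p) (gr β) p d := by
  have := ber_prob h0 h1
  refine ⟨inferInstance, fun e => measurable_of_countable _, fun e => ?_,
    ⟨fun e f => e ≠ f ∧ β e.1 = β f.1, ⟨fun _ _ h => ⟨h.1.symm, h.2.symm⟩⟩, ⟨fun _ h => h.1 rfl⟩⟩,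
    fun e => ?_, fun e => ?_, fun A B hAB h => ?_⟩
  · rw [ind_gr]; simpa using coord h0 h1 (β e.1) true
  · have h2 := h (β e.1)
    rw [← Finset.card_erase_add_one (a := e.1) (by simp)] at h2
    refine le_trans ?_ (Nat.le_of_succ_le_succ h2)
    refine Finset.card_le_card_of_injOn (fun f => f.1) (fun f hf => ?_) Subtype.val_injective.injOn
    simp only [Finset.mem_coe, SimpleGraph.mem_neighborFinset] at hf
    simp only [Finset.coe_erase, Finset.coe_filter, Finset.mem_univ, true_and, Set.mem_sdiff,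
      Set.mem_ofPred_eq, Set.mem_singleton_iff]
    exact ⟨hf.2.symm, fun h' => hf.1 (Subtype.ext h').symm⟩
  · simp only [ind_gr]
    exact (indep_maps (ber p) (fun _ : Unit => β e.1)
      (fun f : {f : Pair n // f ≠ e ∧ ¬ (e ≠ f ∧ β e.1 = β f.1)} => β f.1.1)
      fun _ f hf => f.2.2 ⟨f.2.1.symm, hf⟩).comp (φ := fun z => z ()) (ψ := id)
      (measurable_of_countable _) measurable_id
  · simp only [ind_gr]
    exact indep_maps (ber p) (fun e : A => β e.1.1) (fun f : B => β f.1.1) fun e f hf =>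
      h e.1 e.2 f.1 f.2 ⟨fun h' => Set.disjoint_left.1 hAB e.2 (h' ▸ f.2), hf⟩

section main
variable {n K s : ℕ} (φ : Fin n ≃ ZMod 3 × Fin K × Fin s)

abbrev Lab (n K s : ℕ) := Sym2 (Fin n) ⊕ (ZMod 3 × Fin K × Fin s) × Fin K

noncomputable def lab : Sym2 (Fin n) → Lab n K s := Sym2.lift ⟨fun u v =>
  if (φ v).1 = (φ u).1 + 1 then .inr (φ u, (φ v).2.1)
  else if (φ u).1 = (φ v).1 + 1 then .inr (φ v, (φ u).2.1) else .inl s(u, v), fun u v => by
    have : ∀ a b : ZMod 3, b = a + 1 → a ≠ b + 1 := by decide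
    beta_reduce
    by_cases h1 : (φ v).1 = (φ u).1 + 1
    · rw [if_pos h1, if_neg (this _ _ h1), if_pos h1]
    · by_cases h2 : (φ u).1 = (φ v).1 + 1
      · rw [if_neg h1, if_pos h2, if_pos h2]
      · rw [if_neg h1, if_neg h2, if_neg h2, if_neg h1, Sym2.eq_swap]⟩

lemma lab_card (hs : 1 ≤ s) (l : Lab n K s) :
    (Finset.univ.filter fun e => lab φ e = l).card ≤ s - 1 + 1 := by
  rw [Nat.sub_add_cancel hs]
  rcases l with e0 | ⟨x, j⟩
  · refine le_trans (Finset.card_le_card (t := {e0}) fun e he => ?_) (by simpa using hs)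
    induction e using Sym2.ind with
    | _ u v =>
      simp only [lab, Finset.mem_filter, Finset.mem_univ, true_and, Sym2.lift_mk] at he
      split_ifs at he
      simpa using he
  · refine le_trans (Finset.card_le_card (t := Finset.univ.image fun a : Fin s =>
      s(φ.symm x, φ.symm (x.1 + 1, j, a))) fun e he => ?_) (Finset.card_image_le.trans (by simp))
    induction e using Sym2.ind with
    | _ u v =>
      simp only [lab, Finset.mem_filter, Finset.mem_univ, true_and, Sym2.lift_mk] at he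
      simp only [Finset.mem_image, Finset.mem_univ, true_and]
      split_ifs at he with h1 h2
      · simp only [Sum.inr.injEq, Prod.mk.injEq] at he
        refine ⟨(φ v).2.2, ?_⟩
        rw [← he.1, ← he.2, ← h1]; simp
      · simp only [Sum.inr.injEq, Prod.mk.injEq] at he
        refine ⟨(φ u).2.2, ?_⟩
        rw [← he.1, ← he.2, ← h2]; simp

lemma star_adj {y : Lab n K s → Bool} {x : ZMod 3 × Fin K × Fin s} {j : Fin K}
    (h : y (.inr (x, j)) = true) (a : Fin s) :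
    (gr (lab φ) y).Adj (φ.symm x) (φ.symm (x.1 + 1, j, a)) := by
  have : ∀ g : ZMod 3, g ≠ g + 1 := by decide
  refine (SimpleGraph.fromEdgeSet_adj _).2 ⟨by simpa [lab] using h, fun h' => this x.1 ?_⟩
  exact congrArg Prod.fst (φ.symm.injective h')

lemma conn_of {y : Lab n K s → Bool} (j0 j1 : Fin K) (a0 : Fin s) (hj : j1 ≠ j0)
    (h : ∀ g j, j ≠ j0 → ∃ i, (∃ a, y (.inr ((g, i, a), j)) = true) ∧
      ∃ a, y (.inr ((g, i, a), j0)) = true) : (gr (lab φ) y).Connected := by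
  have cov : ∀ g j, ∃ i a, y (.inr ((g, i, a), j)) = true := by
    intro g j
    by_cases hj0 : j = j0
    · obtain ⟨i, -, a, ha⟩ := h g j1 hj; exact ⟨i, a, hj0 ▸ ha⟩
    · obtain ⟨i, ⟨a, ha⟩, -⟩ := h g j hj0; exact ⟨i, a, ha⟩
  have part : ∀ g j a b, (gr (lab φ) y).Reachable (φ.symm (g, j, a)) (φ.symm (g, j, b)) := by
    intro g j a b
    obtain ⟨i, c, hc⟩ := cov (g - 1) j
    have h1 := (star_adj φ hc a).reachable.symm.trans (star_adj φ hc b).reachable
    simpa using h1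
  have grp : ∀ g j a, (gr (lab φ) y).Reachable (φ.symm (g, j, a)) (φ.symm (g, j0, a0)) := by
    intro g j a
    by_cases hj0 : j = j0
    · exact hj0 ▸ part g j a a0
    · obtain ⟨i, ⟨b, hb⟩, c, hc⟩ := h (g - 1) j hj0
      have h1 := ((star_adj φ hb a).reachable.symm.trans (part _ i b c)).trans
        (star_adj φ hc a0).reachable
      simpa using h1
  have nxt : ∀ g, (gr (lab φ) y).Reachable (φ.symm (g, j0, a0)) (φ.symm (g + 1, j0, a0)) := by
    intro g
    obtain ⟨i, c, hc⟩ := cov g j0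
    exact (grp g i c).symm.trans (star_adj φ hc a0).reachable
  have all : ∀ v, (gr (lab φ) y).Reachable v (φ.symm (0, j0, a0)) := by
    intro v
    obtain ⟨⟨g, j, a⟩, rfl⟩ := φ.symm.surjective v
    refine (grp g j a).trans ?_
    have : g = 0 ∨ g = 0 + 1 ∨ g + 1 = 0 := by revert g; decide
    rcases this with h1 | h1 | h1
    · rw [h1]
    · rw [h1]; exact (nxt 0).symm
    · exact h1 ▸ nxt g
  have : Nonempty (Fin n) := ⟨φ.symm (0, j0, a0)⟩
  exact ⟨fun u v => (all u).trans (all v).symm⟩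

lemma bad_le {p q : ℝ} (h0 : 0 ≤ p) (h1 : p ≤ 1) (hq0 : 0 ≤ q) (hq : (1 - p) ^ s ≤ 1 - q)
    (g : ZMod 3) {j j0 : Fin K} (hj : j ≠ j0) :
    (Measure.pi fun _ : Lab n K s => ber p).real {y | ¬ ∃ i, (∃ a, y (.inr ((g, i, a), j)) = true) ∧
      ∃ a, y (.inr ((g, i, a), j0)) = true} ≤ (1 - q ^ 2) ^ K := by
  have := ber_prob h0 h1
  have hq1 : q ≤ 1 := by linarith [pow_nonneg (sub_nonneg.2 h1) s]
  have c1 : ∀ i j, q ≤ (Measure.pi fun _ : Lab n K s => ber p).real
      {y | ∃ a, y (.inr ((g, i, a), j)) = true} := by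
    intro i j
    have h2 := dep_prod (ber p) (fun a : Fin s => ({.inr ((g, i, a), j)} : Set (Lab n K s)))
      (fun a => {y | y (.inr ((g, i, a), j)) = false}) (fun a b hab => by simpa using hab)
      (fun a x y hxy hx => (hxy (.inr ((g, i, a), j)) rfl).symm.trans hx) (sub_nonneg.2 h1)
      (fun a => (coord h0 h1 _ false).le) Finset.univ
    have h3 : {y : Lab n K s → Bool | ∃ a, y (.inr ((g, i, a), j)) = true} =
        (⋂ a ∈ Finset.univ, {y | y (.inr ((g, i, a), j)) = false})ᶜ := by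
      ext y; simp
    rw [h3, probReal_compl_eq_one_sub MeasurableSet.of_discrete]
    rw [Finset.card_univ, Fintype.card_fin] at h2
    linarith
  have d1 : ∀ i j, Dep {l : Lab n K s | ∃ a, l = .inr ((g, i, a), j)}
      {y | ∃ a, y (.inr ((g, i, a), j)) = true} :=
    fun i j x y hxy ⟨a, ha⟩ => ⟨a, (hxy _ ⟨a, rfl⟩).symm.trans ha⟩
  have h2 := dep_prod (ber p) (fun i : Fin K => {l : Lab n K s | ∃ a j, l = .inr ((g, i, a), j)})
    (fun i => ({y | ∃ a, y (.inr ((g, i, a), j)) = true} ∩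
      {y | ∃ a, y (.inr ((g, i, a), j0)) = true})ᶜ) (fun i i' hi => ?_) (fun i x y hxy hx hy => ?_)
    (c := 1 - q ^ 2) (by nlinarith) (fun i => ?_) Finset.univ
  · rw [Finset.card_univ, Fintype.card_fin] at h2
    convert h2 using 2
    ext y; simp
  · refine Set.disjoint_left.2 ?_
    rintro _ ⟨a, j, rfl⟩ ⟨b, j', h⟩
    simp only [Sum.inr.injEq, Prod.mk.injEq] at h
    exact hi h.1.2.1
  · obtain ⟨⟨a, ha⟩, b, hb⟩ := hy
    exact hx ⟨⟨a, (hxy _ ⟨a, j, rfl⟩).trans ha⟩, b, (hxy _ ⟨b, j0, rfl⟩).trans hb⟩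
  · rw [probReal_compl_eq_one_sub MeasurableSet.of_discrete, dep_mul (ber p) ?_ (d1 i j) (d1 i j0)]
    · nlinarith [mul_le_mul (c1 i j) (c1 i j0) hq0 measureReal_nonneg]
    · refine Set.disjoint_left.2 ?_
      rintro _ ⟨a, rfl⟩ ⟨b, h⟩
      simp only [Sum.inr.injEq, Prod.mk.injEq] at h
      exact hj h.2

lemma conn_ge {p q : ℝ} (h0 : 0 ≤ p) (h1 : p ≤ 1) (hq0 : 0 ≤ q) (hq : (1 - p) ^ s ≤ 1 - q)
    (hK : 2 ≤ K) (hs : 1 ≤ s) : 1 - 3 * K * (1 - q ^ 2) ^ K ≤
    (Measure.pi fun _ : Lab n K s => ber p).real {y | (gr (lab φ) y).Connected} := by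
  have := ber_prob h0 h1
  have hq1 : q ≤ 1 := by linarith [pow_nonneg (sub_nonneg.2 h1) s]
  have h2 := probReal_compl_eq_one_sub (μ := Measure.pi fun _ : Lab n K s => ber p)
    (s := {y | (gr (lab φ) y).Connected}) MeasurableSet.of_discrete
  have h3 : {y | (gr (lab φ) y).Connected}ᶜ ⊆ ⋃ x : ZMod 3 × Fin K, {y : Lab n K s → Bool |
      x.2 ≠ ⟨0, by omega⟩ ∧ ¬ ∃ i, (∃ a, y (.inr ((x.1, i, a), x.2)) = true) ∧
        ∃ a, y (.inr ((x.1, i, a), ⟨0, by omega⟩)) = true} := by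
    intro y hy
    by_contra hh
    refine hy (conn_of φ ⟨0, by omega⟩ ⟨1, by omega⟩ ⟨0, by omega⟩ (by simp) fun g j hj => ?_)
    by_contra h4
    exact hh (Set.mem_iUnion.2 ⟨(g, j), hj, h4⟩)
  have h4 := ((measureReal_mono (μ := Measure.pi fun _ : Lab n K s => ber p) h3).trans
    (measureReal_iUnion_fintype_le _)).trans (Finset.sum_le_card_nsmul _ _ ((1 - q ^ 2) ^ K)
      fun x _ => ?_)
  · simp only [Finset.card_univ, Fintype.card_prod, ZMod.card, Fintype.card_fin, nsmul_eq_mul,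
      Nat.cast_mul, Nat.cast_ofNat] at h4
    linarith
  · by_cases hx : x.2 = ⟨0, by omega⟩
    · simp only [hx, ne_eq, not_true_eq_false, false_and, Set.ofPred_false, measureReal_empty]
      exact pow_nonneg (by nlinarith) _
    · simp only [ne_eq, hx, not_false_eq_true, true_and]
      exact bad_le h0 h1 hq0 hq x.1 hx

end main

def NN (k : ℕ) : ℕ := 3 * (k ^ 4 * 2 ^ (k ^ 4))

lemma special (k : ℕ) (hk : 48 ≤ k) : ∃ (d : ℕ) (p : ℝ) (Ω : Type) (_ : MeasurableSpace Ω)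
    (P : Measure Ω) (G : Ω → SimpleGraph (Fin (NN k))), IsDep P G p d ∧ 0 ≤ p ∧ p ≤ 1 ∧
    (d : ℝ) ≤ 2 * (NN k / Real.log (NN k)) ∧ p / (Real.log (NN k) / NN k) ≤ 6 / k ∧
    1 / 2 ≤ P.real {ω | (G ω).Connected} := by
  obtain ⟨K, hK⟩ : ∃ K, K = k ^ 4 := ⟨_, rfl⟩
  obtain ⟨s, hs⟩ : ∃ s, s = 2 ^ K := ⟨_, rfl⟩
  have hN : NN k = 3 * (K * s) := by rw [NN, hs, hK]
  have hk0 : (48 : ℝ) ≤ k := by exact_mod_cast hk
  have hs1 : 1 ≤ s := hs ▸ Nat.one_le_two_pow
  have hs0 : (1 : ℝ) ≤ s := by exact_mod_cast hs1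
  have hK2 : 2 ≤ K := by
    rw [hK]; exact le_trans (by norm_num) (Nat.pow_le_pow_left hk 4)
  have hK0 : (2 : ℝ) ≤ K := by exact_mod_cast hK2
  have φ : Fin (NN k) ≃ ZMod 3 × Fin K × Fin s := Fintype.equivOfCardEq (by simp [hN])
  have h0 : (0 : ℝ) ≤ 1 / (k * s) := by positivity
  have h1 : (1 : ℝ) / (k * s) ≤ 1 := by rw [div_le_one (by positivity)]; nlinarith
  have hNr : (NN k : ℝ) = 3 * K * s := by rw [hN]; push_cast; ring
  have hl : Real.log (NN k) = Real.log (3 * K) + K * Real.log 2 := by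
    rw [hNr, Real.log_mul (by positivity) (by positivity), hs]; simp
  have l1 := Real.log_le_sub_one_of_pos (show (0 : ℝ) < 3 * K by positivity)
  have l2 := Real.log_nonneg (show (1 : ℝ) ≤ 3 * K by linarith)
  have l3 := Real.log_two_gt_d9
  have l4 := Real.log_two_lt_d9
  have hlo : K / 2 ≤ Real.log (NN k) := by rw [hl]; nlinarith
  have hhi : Real.log (NN k) ≤ 4 * K := by rw [hl]; nlinarith
  have hlp : 0 < Real.log (NN k) := by linarith
  refine ⟨s - 1, 1 / (k * s), _, _, _, _, isDep_gr (lab φ) h0 h1 (fun l => by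
    convert lab_card φ hs1 l), h0, h1, ?_, ?_,
    le_trans ?_ (conn_ge φ (q := 1 / (2 * k)) h0 h1 (by positivity) ?_ hK2 hs1)⟩
  · rw [Nat.cast_sub hs1, ← mul_div_assoc, le_div_iff₀ hlp, hNr]
    rw [hNr] at hhi hlp
    push_cast
    nlinarith
  · rw [div_le_iff₀ (by rw [hNr] at hlp ⊢; positivity), div_mul_div_comm,
      div_le_div_iff₀ (by positivity) (by rw [hNr]; positivity)]
    rw [hNr] at hlo ⊢
    nlinarith [mul_le_mul_of_nonneg_right hlo (show (0 : ℝ) ≤ k * s by positivity)]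
  · have e1 : (1 - (1 / (2 * k) : ℝ) ^ 2) ^ K ≤ Real.exp (-(1 / (2 * k) : ℝ) ^ 2) ^ K :=
      pow_le_pow_left₀ (by
        have : (1 / (2 * k) : ℝ) ≤ 1 := by rw [div_le_one (by positivity)]; linarith
        have : (0 : ℝ) ≤ 1 / (2 * k) := by positivity
        nlinarith) (Real.one_sub_le_exp_neg _) K
    have hKr : (K : ℝ) = k ^ 4 := by rw [hK]; push_cast; ring
    rw [← Real.exp_nat_mul, show (K : ℝ) * -(1 / (2 * k) : ℝ) ^ 2 = -(k ^ 2 / 4) by
      rw [hKr]; field_simp; ring, Real.exp_neg] at e1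
    have e2 := Real.pow_div_factorial_le_exp (x := (k : ℝ) ^ 2 / 4) (by positivity) 3
    have e3 : 6 * (K : ℝ) ≤ Real.exp ((k : ℝ) ^ 2 / 4) := by
      refine le_trans ?_ e2
      rw [hKr]
      norm_num [Nat.factorial]
      have : (48 : ℝ) ^ 2 ≤ k ^ 2 := by gcongr
      nlinarith [pow_pos (show (0 : ℝ) < k by linarith) 4]
    have e4 := e1.trans (inv_anti₀ (by positivity) e3)
    have e5 : 3 * (K : ℝ) * (6 * (K : ℝ))⁻¹ = 1 / 2 := by field_simp; ring
    nlinarith [mul_le_mul_of_nonneg_left e4 (show (0 : ℝ) ≤ 3 * K by positivity)]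
  · have e1 : (1 - (1 / (k * s) : ℝ)) ^ s ≤ Real.exp (-(1 / (k * s) : ℝ)) ^ s :=
      pow_le_pow_left₀ (by linarith) (Real.one_sub_le_exp_neg _) s
    rw [← Real.exp_nat_mul, show (s : ℝ) * -(1 / (k * s) : ℝ) = -(1 / k) by field_simp,
      Real.exp_neg] at e1
    refine e1.trans ((inv_anti₀ (by positivity) (Real.add_one_le_exp _)).trans ?_)
    rw [inv_le_iff_one_le_mul₀ (by positivity)]
    field_simp
    nlinarith

lemma NN_strict : StrictMono NN := fun a b h => by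
  have h1 : a ^ 4 < b ^ 4 := Nat.pow_lt_pow_left h (by norm_num)
  have h2 : 2 ^ (a ^ 4) ≤ 2 ^ (b ^ 4) := Nat.pow_le_pow_right (by norm_num) h1.le
  have h3 := Nat.mul_lt_mul_of_lt_of_le h1 h2 (by positivity)
  unfold NN
  omega

theorem result : ∃ (d : ℕ → ℕ) (p : ℕ → ℝ), (∀ n, 0 ≤ p n ∧ p n ≤ 1) ∧
    ((fun n => (d n : ℝ)) =O[atTop] fun n : ℕ => (n : ℝ) / Real.log n) ∧
    Tendsto (fun n : ℕ => p n / (Real.log n / n)) atTop (𝓝 0) ∧
    ∃ (Ω : ℕ → Type) (_ : ∀ n, MeasurableSpace (Ω n)) (P : ∀ n, Measure (Ω n))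
      (G : ∀ n, Ω n → SimpleGraph (Fin n)), (∀ n, IsDep (P n) (G n) (p n) (d n)) ∧
      ¬ Tendsto (fun n => (P n).real {ω | (G n ω).Connected}) atTop (𝓝 0) := by
  have key : ∀ n : ℕ, ∃ (d : ℕ) (p : ℝ) (Ω : Type) (_ : MeasurableSpace Ω)
      (P : Measure Ω) (G : Ω → SimpleGraph (Fin n)), IsDep P G p d ∧ 0 ≤ p ∧ p ≤ 1 ∧
      (d : ℝ) ≤ 2 * (n / Real.log n) ∧
      (p = 0 ∨ ∃ k, n = NN k ∧ p / (Real.log n / n) ≤ 6 / k) ∧
      ((∃ k, 48 ≤ k ∧ n = NN k) → 1 / 2 ≤ P.real {ω | (G ω).Connected}) := by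
    intro n
    by_cases h : ∃ k, 48 ≤ k ∧ n = NN k
    · obtain ⟨k, hk, rfl⟩ := h
      obtain ⟨d, p, Ω, m, P, G, h1, h2, h3, h4, h5, h6⟩ := special k hk
      exact ⟨d, p, Ω, m, P, G, h1, h2, h3, h4, Or.inr ⟨k, rfl, h5⟩, fun _ => h6⟩
    · refine ⟨0, 0, _, _, _, _, isDep_gr id le_rfl zero_le_one fun l => ?_, le_rfl, zero_le_one,
        ?_, Or.inl rfl, fun h' => absurd h' h⟩
      · simp [Finset.filter_eq']
      · have := Real.log_natCast_nonneg n
        simp only [Nat.cast_zero]; positivity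
  choose d p Ω m P G h1 h2 h3 h4 h5 h6 using key
  refine ⟨d, p, fun n => ⟨h2 n, h3 n⟩, IsBigO.of_bound 2 (Eventually.of_forall fun n => ?_), ?_,
    Ω, m, P, G, h1, fun h => ?_⟩
  · rw [Real.norm_natCast]
    exact (h4 n).trans (by gcongr; exact le_abs_self _)
  · rw [Metric.tendsto_atTop]
    intro ε hε
    obtain ⟨k0, hk0⟩ := exists_nat_gt (6 / ε)
    refine ⟨NN k0, fun n hn => ?_⟩
    have hl := Real.log_natCast_nonneg n
    rw [Real.dist_0_eq_abs, abs_of_nonneg (div_nonneg (h2 n) (by positivity))]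
    rcases h5 n with h | ⟨k, hk, h⟩
    · simpa [h] using hε
    · have h7 : (k0 : ℝ) ≤ k := by exact_mod_cast NN_strict.le_iff_le.1 (hk ▸ hn)
      have h8 : 0 < 6 / ε := by positivity
      refine h.trans_lt ?_
      rw [div_lt_iff₀ (by linarith)]
      rw [div_lt_iff₀ hε] at hk0
      nlinarith
  · have h7 := (h.comp NN_strict.tendsto_atTop).eventually
      (gt_mem_nhds (show (0 : ℝ) < 1 / 2 by norm_num))
    obtain ⟨k, h8, h9⟩ := (h7.and (eventually_ge_atTop 48)).exists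
    exact absurd (h6 _ ⟨k, h9, rfl⟩) (not_le.2 h8)

end Pool.Agent.Results.MP_b3d828_pr.Stars
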